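import Pool.Agent.helper84.ChanSimProof

open Matrix MeasureTheory Pool.Agent.helper84.ChanSim

namespace Pool.Agent.Results.MP_796113_mp.NoConstantRounds

/-- Negative answer to the question: for every `c > 0` and every number of rounds `R` there are a
dimension `d ≥ 2` and a channel `Φ` on `ℂ^d` which no protocol with one ancilla qubit and at most
`R` rounds simulates with success probability at least `c`. -/
theorem result : ∀ c : ℝ, 0 < c → ∀ R : ℕ, ∃ d : ℕ, 2 ≤ d ∧
    ∃ Φ : Matrix (Fin d) (Fin d) ℂ →ₗ[ℂ] Matrix (Fin d) (Fin d) ℂ, IsChannel Φ ∧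
      ¬ ∃ (Ω : Type) (_ : MeasurableSpace Ω) (P : Measure Ω) (_ : IsProbabilityMeasure P)
          (T : Ω → Protocol d R) (q : ℝ), c ≤ q ∧ Simulates P T Φ q :=
  Pool.Agent.helper84.ChanSim.main

end Pool.Agent.Results.MP_796113_mp.NoConstantRounds
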